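import Mathlib
import Pool.Agent.Helper2.NNP.Stm

/-!
# The lemma of Borel and Cantelli for pairwise quasi-independent sets, with Lebesgue's density theorem

Proof of `Pool.Agent.Helper2.NNP.S_KS`.
-/

set_option autoImplicit false

open MeasureTheory Set Filter Topology

namespace Pool.Agent.Helper61A.NNP

theorem ks_chung {Ω : Type*} [MeasurableSpace Ω] {μ : Measure Ω} [IsFiniteMeasure μ] {ι : Type*}
    (s : Finset ι) (A : ι → Set Ω) (hA : ∀ i ∈ s, MeasurableSet (A i)) :
    (∑ i ∈ s, μ.real (A i)) ^ 2 ≤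
      (∑ i ∈ s, ∑ j ∈ s, μ.real (A i ∩ A j)) * μ.real (⋃ i ∈ s, A i) := by
  classical
  set U := ⋃ i ∈ s, A i with hU
  have hUm : MeasurableSet U := Finset.measurableSet_biUnion _ fun i hi => hA i hi
  set Z : Ω → ℝ := fun x => ∑ i ∈ s, (A i).indicator (fun _ => (1 : ℝ)) x with hZ
  have hZint : Integrable Z μ :=
    integrable_finsetSum _ fun i hi => (integrable_const _).indicator (hA i hi)
  have hZ1 : ∫ x, Z x ∂μ = ∑ i ∈ s, μ.real (A i) := by
    rw [hZ, integral_finsetSum _ fun i hi => (integrable_const _).indicator (hA i hi)]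
    refine Finset.sum_congr rfl fun i hi => ?_
    rw [integral_indicator_const _ (hA i hi)]
    simp
  have hZZ : ∀ x, Z x ^ 2 = ∑ i ∈ s, ∑ j ∈ s, (A i ∩ A j).indicator (fun _ => (1 : ℝ)) x := by
    intro x
    rw [hZ, sq, Finset.sum_mul_sum]
    refine Finset.sum_congr rfl fun i _ => Finset.sum_congr rfl fun j _ => ?_
    by_cases h1 : x ∈ A i <;> by_cases h2 : x ∈ A j <;> simp [h1, h2]
  have hZ2int : Integrable (fun x => Z x ^ 2) μ := by
    simp_rw [hZZ]
    exact integrable_finsetSum _ fun i hi => integrable_finsetSum _ fun j hj =>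
      (integrable_const _).indicator ((hA i hi).inter (hA j hj))
  have hZ2 : ∫ x, Z x ^ 2 ∂μ = ∑ i ∈ s, ∑ j ∈ s, μ.real (A i ∩ A j) := by
    simp_rw [hZZ]
    rw [integral_finsetSum _ fun i hi => integrable_finsetSum _ fun j hj =>
      (integrable_const _).indicator ((hA i hi).inter (hA j hj))]
    refine Finset.sum_congr rfl fun i hi => ?_
    rw [integral_finsetSum _ fun j hj =>
      (integrable_const _).indicator ((hA i hi).inter (hA j hj))]
    refine Finset.sum_congr rfl fun j hj => ?_
    rw [integral_indicator_const _ ((hA i hi).inter (hA j hj))]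
    simp
  set S := ∑ i ∈ s, μ.real (A i) with hS
  set Q := ∑ i ∈ s, ∑ j ∈ s, μ.real (A i ∩ A j) with hQ
  set u := μ.real U with hu
  have hquad : ∀ t : ℝ, 0 ≤ u * (t * t) + (-2 * S) * t + Q := by
    intro t
    have h1 : ∀ x, 0 ≤ Z x ^ 2 + ((-2 * t) * Z x + U.indicator (fun _ => t ^ 2) x) := by
      intro x
      by_cases hx : x ∈ U
      · rw [Set.indicator_of_mem hx]
        nlinarith [sq_nonneg (Z x - t)]
      · rw [Set.indicator_of_notMem hx]
        have h2 : Z x = 0 := by
          rw [hZ]
          apply Finset.sum_eq_zero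
          intro i hi
          apply Set.indicator_of_notMem
          intro hxi
          exact hx (Set.mem_biUnion hi hxi)
        rw [h2]
        simp
    have h2 : 0 ≤ ∫ x, (Z x ^ 2 + ((-2 * t) * Z x + U.indicator (fun _ => t ^ 2) x)) ∂μ :=
      integral_nonneg h1
    have i1 : Integrable (fun x => (-2 * t) * Z x) μ := hZint.const_mul _
    have i2 : Integrable (U.indicator (fun _ => t ^ 2)) μ := (integrable_const _).indicator hUm
    have i3 : Integrable (fun x => (-2 * t) * Z x + U.indicator (fun _ => t ^ 2) x) μ := i1.add i2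
    rw [integral_add hZ2int i3, integral_add i1 i2, integral_const_mul, hZ1, hZ2,
      integral_indicator_const _ hUm, smul_eq_mul] at h2
    linarith
  have h3 := discrim_le_zero hquad
  unfold discrim at h3
  nlinarith

/-- Kochen and Stone: a lower bound for the measure of the limsup set. -/
theorem limsup_lower {α : Type*} [MeasurableSpace α] (μ : Measure α) [IsFiniteMeasure μ]
    (n₀ : ℕ) (E : ℕ → Set α) (w : ℕ → ℝ)
    (c C V : ℝ) (hc : 0 < c) (hC : 0 < C) (hV : 0 < V) (hw : ∀ i, n₀ ≤ i → 0 ≤ w i)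
    (hm : ∀ i, MeasurableSet (E i))
    (hlow : ∀ i, n₀ ≤ i → c * V * w i ≤ μ.real (E i))
    (hup : ∀ i, n₀ ≤ i → μ.real (E i) ≤ C * V * w i)
    (hpair : ∀ i j, n₀ ≤ i → i < j → μ.real (E i ∩ E j) ≤ C * V * (w i * w j))
    (hdiv : ¬ Summable w) :
    c ^ 2 / (2 * C) * V ≤ μ.real {x | ∃ᶠ n in atTop, x ∈ E n} := by
  classical
  have hdiv' : ∀ k₀ : ℕ, ∃ T : Finset ℕ, (∀ i ∈ T, n₀ ≤ i ∧ k₀ ≤ i) ∧ 1 ≤ ∑ i ∈ T, w i := by
    intro k₀
    by_contra hcon
    push Not at hcon
    apply hdiv
    have h1 : Summable (fun n => w (n + (n₀ + k₀))) := by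
      apply summable_of_sum_range_le (c := 1)
      · intro n
        exact hw _ (by omega)
      · intro n
        have h2 := hcon (Finset.image (fun n => n + (n₀ + k₀)) (Finset.range n)) (by
          intro i hi
          rw [Finset.mem_image] at hi
          obtain ⟨j, -, rfl⟩ := hi
          omega)
        rw [Finset.sum_image (by intro x _ y _ h; simpa using h)] at h2
        exact h2.le
    exact (summable_nat_add_iff _).mp h1
  have hpair2 : ∀ i j, n₀ ≤ i → n₀ ≤ j → i ≠ j → μ.real (E i ∩ E j) ≤ C * V * w i * w j := by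
    intro i j hi hj hij
    rcases lt_or_gt_of_ne hij with h | h
    · have := hpair i j hi h
      linarith
    · have := hpair j i hj h
      rw [inter_comm] at this
      linarith
  let U : ℕ → Set α := fun k => ⋃ i, ⋃ (_ : n₀ ≤ i ∧ k ≤ i), E i
  have hUm : ∀ k, MeasurableSet (U k) := fun k =>
    MeasurableSet.iUnion fun i => MeasurableSet.iUnion fun hi => hm i
  have hUlow : ∀ k, c ^ 2 / (2 * C) * V ≤ μ.real (U k) := by
    intro k
    obtain ⟨T, hT, hM⟩ := hdiv' k
    set W := ∑ i ∈ T, w i with hW
    have hch := ks_chung (μ := μ) T E fun i hi => hm i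
    have h1 : c * V * W ≤ ∑ i ∈ T, μ.real (E i) := by
      rw [hW, Finset.mul_sum]
      exact Finset.sum_le_sum fun i hi => hlow i (hT i hi).1
    have h2 : ∑ i ∈ T, ∑ j ∈ T, μ.real (E i ∩ E j) ≤ C * V * W + C * V * W ^ 2 := by
      have h3 : ∀ i ∈ T, ∑ j ∈ T, μ.real (E i ∩ E j) ≤ C * V * w i + C * V * w i * W := by
        intro i hi
        have h4 : ∀ j ∈ T, μ.real (E i ∩ E j) ≤
            (if i = j then C * V * w i else 0) + C * V * w i * w j := by
          intro j hj
          have hwi := hw i (hT i hi).1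
          have hwj := hw j (hT j hj).1
          by_cases hij : i = j
          · rw [if_pos hij, ← hij, inter_self]
            have h5 := hup i (hT i hi).1
            have h6 : 0 ≤ C * V * w i * w i := by positivity
            linarith
          · rw [if_neg hij, zero_add]
            exact hpair2 i j (hT i hi).1 (hT j hj).1 hij
        refine (Finset.sum_le_sum h4).trans ?_
        rw [Finset.sum_add_distrib, Finset.sum_ite_eq, if_pos hi, ← Finset.mul_sum]
      refine (Finset.sum_le_sum h3).trans ?_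
      rw [Finset.sum_add_distrib, ← Finset.mul_sum, ← Finset.sum_mul, ← Finset.mul_sum]
      apply le_of_eq
      ring
    have h3 : μ.real (⋃ i ∈ T, E i) ≤ μ.real (U k) := by
      refine measureReal_mono ?_ (measure_ne_top _ _)
      refine iUnion₂_subset fun i hi => ?_
      exact subset_iUnion_of_subset i (subset_iUnion_of_subset (hT i hi) subset_rfl)
    have hW1 : 1 ≤ W := hM
    have h4 : (c * V * W) ^ 2 ≤ (2 * C * V * W ^ 2) * μ.real (U k) := by
      have h5 : (c * V * W) ^ 2 ≤ (∑ i ∈ T, μ.real (E i)) ^ 2 := by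
        apply pow_le_pow_left₀ _ h1
        positivity
      have h6 : C * V * W + C * V * W ^ 2 ≤ 2 * C * V * W ^ 2 := by
        have : C * V * W ≤ C * V * W ^ 2 := by
          apply mul_le_mul_of_nonneg_left _ (by positivity)
          nlinarith
        linarith
      refine h5.trans (hch.trans ?_)
      apply mul_le_mul (h2.trans h6) h3 measureReal_nonneg (by positivity)
    have h7 : c ^ 2 / (2 * C) * V = (c * V * W) ^ 2 / (2 * C * V * W ^ 2) := by
      field_simp
    rw [h7, div_le_iff₀ (by positivity)]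
    linarith
  have hset : {x | ∃ᶠ n in atTop, x ∈ E n} = ⋂ k, U k := by
    ext x
    simp only [Set.mem_ofPred_eq, mem_iInter, U, mem_iUnion, frequently_atTop]
    constructor
    · intro h k
      obtain ⟨i, h1, h2⟩ := h (max n₀ k)
      exact ⟨i, ⟨(le_max_left _ _).trans h1, (le_max_right _ _).trans h1⟩, h2⟩
    · intro h k
      obtain ⟨i, h1, h2⟩ := h k
      exact ⟨i, h1.2, h2⟩
  rw [hset]
  have hanti : Antitone U := by
    intro k l hkl
    refine iUnion_subset fun i => iUnion_subset fun hi => ?_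
    exact subset_iUnion_of_subset i (subset_iUnion_of_subset ⟨hi.1, hkl.trans hi.2⟩ subset_rfl)
  have hlim := tendsto_measure_iInter_atTop (μ := μ) (fun k => (hUm k).nullMeasurableSet) hanti
    ⟨0, measure_ne_top _ _⟩
  have hlim2 := (ENNReal.tendsto_toReal (measure_ne_top μ (⋂ k, U k))).comp hlim
  exact ge_of_tendsto' hlim2 hUlow

/-- the lemma of Borel and Cantelli for pairwise quasi-independent sets, with Lebesgue's density theorem -/
theorem t_KS : Pool.Agent.Helper2.NNP.S_KS := by
  intro E a w c C hc hC hE h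
  have hWm : MeasurableSet {x : ℝ | ∃ᶠ n in atTop, x ∈ E n} := by
    have : {x : ℝ | ∃ᶠ n in atTop, x ∈ E n} = ⋂ k : ℕ, ⋃ i : ℕ, ⋃ (_ : k ≤ i), E i := by
      ext x
      simp only [Set.mem_ofPred_eq, mem_iInter, mem_iUnion, frequently_atTop]
      constructor
      · intro h k
        obtain ⟨i, h1, h2⟩ := h k
        exact ⟨i, h1, h2⟩
      · intro h k
        obtain ⟨i, h1, h2⟩ := h k
        exact ⟨i, h1, h2⟩
    rw [this]
    exact MeasurableSet.iInter fun k => MeasurableSet.iUnion fun i => MeasurableSet.iUnion fun _ => hE i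
  set W := {x : ℝ | ∃ᶠ n in atTop, x ∈ E n} with hWdef
  have h1 := Besicovitch.ae_tendsto_measure_inter_div_of_measurableSet (volume : Measure ℝ) hWm
  filter_upwards [h1] with u hu hau
  by_contra hnW
  have hnW' : u ∉ W := hnW
  rw [indicator_of_notMem hnW'] at hu
  obtain ⟨r₀, hr₀, hr⟩ := h u hau
  have hk : 0 < c ^ 2 / (2 * C) := by positivity
  have h2 : ∀ᶠ r in nhdsWithin (0 : ℝ) (Ioi 0), ENNReal.ofReal (c ^ 2 / (2 * C)) ≤
      volume (W ∩ Metric.closedBall u r) / volume (Metric.closedBall u r) := by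
    filter_upwards [Ioo_mem_nhdsGT hr₀] with r hr1
    obtain ⟨hns, n₀, hA, hB⟩ := hr r hr1.1 hr1.2
    have : IsFiniteMeasure (volume.restrict (Set.Icc (u - r) (u + r))) := inferInstance
    have hreal : ∀ S : Set ℝ, MeasurableSet S →
        (volume.restrict (Set.Icc (u - r) (u + r))).real S = volume.real (S ∩ Set.Icc (u - r) (u + r)) := by
      intro S hS
      rw [measureReal_restrict_apply hS]
    have hV : 0 < 2 * r := by linarith [hr1.1]
    have key := limsup_lower (volume.restrict (Set.Icc (u - r) (u + r))) n₀ E (w u r) c C (2 * r) hc hC hV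
      (fun i hi => (hA i hi).1) hE
      (fun i hi => by rw [hreal _ (hE i)]; exact (hA i hi).2.1)
      (fun i hi => by rw [hreal _ (hE i)]; exact (hA i hi).2.2)
      (fun i j hi hij => by
        rw [hreal _ ((hE i).inter (hE j))]
        exact hB i j hi hij)
      hns
    rw [hreal _ hWm] at key
    have hball : Metric.closedBall u r = Set.Icc (u - r) (u + r) := Real.closedBall_eq_Icc
    rw [ENNReal.le_div_iff_mul_le]
    · rw [hball, Real.volume_Icc, ← ENNReal.ofReal_mul hk.le]
      have e1 : u + r - (u - r) = 2 * r := by ring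
      rw [e1]
      refine (ENNReal.ofReal_le_ofReal key).trans ?_
      exact ENNReal.ofReal_toReal_le
    · left
      exact (Metric.measure_closedBall_pos volume u hr1.1).ne'
    · left
      exact measure_closedBall_lt_top.ne
  have h3 := ge_of_tendsto hu h2
  rw [nonpos_iff_eq_zero, ENNReal.ofReal_eq_zero] at h3
  linarith

end Pool.Agent.Helper61A.NNP
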